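import Pool.Agent.W206.YP.Stm
import Pool.Agent.W206.CT.LI
import Pool.Agent.W206.CT.CO
import Pool.Agent.W349.YP.SURJ
import Pool.Agent.W253.YP.PN
import Pool.Agent.W849.YP.TRN
import Pool.Agent.W412.YP.EQV
import Pool.Agent.W357.YP.CMA
import Pool.Agent.W918.YP.ALG
import Pool.Agent.W762.YP.GRO
import Pool.Agent.W664.YP.RES
import Pool.Agent.W513.YP.PA
import Pool.Agent.W398.YP.PG
import Pool.Agent.W804.YP.PB
import Pool.Agent.W590.YP.P4
import Pool.Agent.W975.YP.NI
import Pool.Agent.W810.YP.TRC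
import Pool.Agent.W397.YP.L1
import Pool.Agent.W73.YP.YG
import Pool.Agent.W717.YP.YL
import Pool.Agent.W35.YP.YN
import Pool.Agent.W50.YP.IND
import Pool.Agent.W303.YP.SY
import Pool.Agent.W701.YP.SW
import Pool.Agent.W479.YP.SA
import Pool.Agent.W648.YP.DEF
import Pool.Agent.W389.YP.GEN
import Pool.Agent.W540.YP.TA
import Pool.Agent.W143.YP.SPX
import Pool.Agent.W724.YP.SB
import Pool.Agent.W915.YP.DA
import Pool.Agent.W576.YP.GP
import Pool.Agent.W162.YP.GT2
import Pool.Agent.W883.YP.RL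
import Pool.Agent.W290.YP.LT
import Pool.Agent.W551.YP.RI
import Pool.Agent.W231.YP.TR
import Pool.Agent.W591.YP.DK

set_option autoImplicit false

namespace Pool.Agent.W206.YP

open MvPolynomial UpperHalfPlane H294ZP

theorem eqv : S_EQV := W412.YP.EQV.main W849.YP.TRN.main W349.YP.SURJ.main

theorem p4 : S_P4 :=
  W590.YP.P4.main (W513.YP.PA.main W664.YP.RES.main W849.YP.TRN.main W349.YP.SURJ.main)
    (W804.YP.PB.main W398.YP.PG.main W762.YP.GRO.main) eqv W849.YP.TRN.main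

theorem ni : S_NI := W975.YP.NI.main p4 W253.YP.PN.main

theorem asm (tr : S_TR) (dk : S_DK) : Fin_Stm := by
  have hRL := W883.YP.RL.main W349.YP.SURJ.main W253.YP.PN.main W849.YP.TRN.main W357.YP.CMA.main
    eqv
  have hLT := W290.YP.LT.main dk (hRL W349.YP.SURJ.main W253.YP.PN.main W357.YP.CMA.main)
  have gp := W576.YP.GP.main
  constructor
  · intro h k κ
    have h1 : ∀ (n : ℕ) (V : Set (Fin n → ℂ)), IsVar V → FinI (IV V) :=
      fun n V hV => (hLT (Fin n) V hV).1 (h n V hV)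
    exact (hLT _ (GV κ) (gp _ κ).1).2 (W551.YP.RI.main h1 (Fin k × Fin 3) (GV κ) (gp _ κ).1)
  · intro h n V hV
    have h1 : ∀ (k : ℕ) (κ : Fin k → Bool), FinQ (Fin k) κ := fun k κ =>
      W162.YP.GT2.main gp _ κ ((gp _ κ).2.1 ▸ (hLT _ _ (gp _ κ).1).1 (h k κ))
    have h3 : PW := W479.YP.SA.main (W397.YP.L1.main eqv) W810.YP.TRC.main W357.YP.CMA.main ni
      W918.YP.ALG.main eqv W253.YP.PN.main W73.YP.YG.main W717.YP.YL.main W35.YP.YN.main
      W50.YP.IND.main CT.t_li CT.t_co W303.YP.SY.main W701.YP.SW.main (tr h1)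
    exact (hLT _ V hV).2 (W915.YP.DA.main _ _ (W724.YP.SB.main W648.YP.DEF.main W389.YP.GEN.main
      W540.YP.TA.main W143.YP.SPX.main W50.YP.IND.main ni eqv W253.YP.PN.main W357.YP.CMA.main
      W918.YP.ALG.main h3 _ (IV V)))

theorem final : Fin_Stm := asm W231.YP.TR.main W591.YP.DK.main

end Pool.Agent.W206.YP
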