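import Pool.Agent.H294ZP.Main
import Pool.Agent.W206.CT.Stm
import Pool.Agent.W206.CT.Sys

/-!
# Zilber-Pink for `Y(1)^n` and the gates `z = x + y`, `z = x y`

Definitions and exact statements of the parts.
-/

set_option autoImplicit false

namespace Pool.Agent.W206.YP

open MvPolynomial UpperHalfPlane H294ZP Pool.Agent.W206.CT

/-- the field of algebraic numbers -/
abbrev Qb : Type := ↥(algebraicClosure ℚ ℂ)

/-- `y = j τ` and `x = j (g τ)` for an integral matrix `g` of determinant `N` -/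
def IsoN (N : ℕ) (x y : ℂ) : Prop :=
  ∃ (τ w : ℍ) (a b c d : ℤ), a * d - b * c = (N : ℤ) ∧
    (w : ℂ) * ((c : ℂ) * (τ : ℂ) + (d : ℂ)) = (a : ℂ) * (τ : ℂ) + (b : ℂ) ∧ x = jj w ∧ y = jj τ

/-- isogenous -/
def Iso (x y : ℂ) : Prop := ∃ N : ℕ, 0 < N ∧ IsoN N x y

/-- singular moduli -/
def CMv (x : ℂ) : Prop := ∃ τ : ℍ, IsCM τ ∧ x = jj τ

/-- `F` is a modular polynomial (up to multiplicities) -/
def IsMod (F : MvPolynomial (Fin 2) Qb) : Prop :=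
  ∃ N : ℕ, 0 < N ∧ ∀ x y : ℂ, aeval ![x, y] F = 0 ↔ IsoN N x y

/-- every coordinate in `T` is a singular modulus or isogenous to a coordinate outside `T` -/
def RelT {ι L : Type} [Field L] [Algebra Qb L] (ω : ι → L) (T : Finset ι) : Prop :=
  ∀ t ∈ T, (∃ c : Qb, CMv (c : ℂ) ∧ ω t = algebraMap Qb L c) ∨
    ∃ u, u ∉ T ∧ ∃ F : MvPolynomial (Fin 2) Qb, IsMod F ∧ aeval ![ω t, ω u] F = 0

/-- the gates: `z = x + y` if `κ g`, otherwise `z = x * y` -/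
def Gate {G L : Type} [Field L] (κ : G → Bool) (ω : G × Fin 3 → L) : Prop :=
  ∀ g, ω (g, 2) = if κ g then ω (g, 0) + ω (g, 1) else ω (g, 0) * ω (g, 1)

/-- atypical point of a product of gates -/
def AtypPt (K : Type) {G L : Type} [Fintype G] [Field K] [Field L] [Algebra K L] [Algebra Qb L]
    (κ : G → Bool) (ω : G × Fin 3 → L) : Prop :=
  Gate κ ω ∧ ∃ (m : ℕ) (T : Finset (G × Fin 3)), TrGe K ω m ∧ RelT ω T ∧
    2 * Fintype.card G < m + T.card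

/-- finitely many maximal atypical subvarieties over `ℂ` of a product of gates -/
def FinC (G : Type) [Fintype G] (κ : G → Bool) : Prop :=
  ∃ S : Finset (Ideal (MvPolynomial (G × Fin 3) ℂ)),
    (∀ p ∈ S, ∃ (L : Type) (_ : Field L) (_ : Algebra ℂ L) (_ : Algebra Qb L)
      (_ : IsScalarTower Qb ℂ L) (ω : G × Fin 3 → L), AtypPt ℂ κ ω ∧
      p = RingHom.ker (aeval ω : MvPolynomial (G × Fin 3) ℂ →ₐ[ℂ] L)) ∧
    ∀ (L : Type) [Field L] [Algebra ℂ L] [Algebra Qb L] [IsScalarTower Qb ℂ L]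
      (ω : G × Fin 3 → L), AtypPt ℂ κ ω →
      ∃ p ∈ S, p ≤ RingHom.ker (aeval ω : MvPolynomial (G × Fin 3) ℂ →ₐ[ℂ] L)

/-- finitely many maximal atypical subvarieties over `Qb` of a product of gates -/
def FinQ (G : Type) [Fintype G] (κ : G → Bool) : Prop :=
  ∃ S : Finset (Ideal (MvPolynomial (G × Fin 3) Qb)),
    (∀ p ∈ S, ∃ (L : Type) (_ : Field L) (_ : Algebra Qb L) (ω : G × Fin 3 → L),
      AtypPt Qb κ ω ∧ p = RingHom.ker (aeval ω : MvPolynomial (G × Fin 3) Qb →ₐ[Qb] L)) ∧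
    ∀ (L : Type) [Field L] [Algebra Qb L] (ω : G × Fin 3 → L), AtypPt Qb κ ω →
      ∃ p ∈ S, p ≤ RingHom.ker (aeval ω : MvPolynomial (G × Fin 3) Qb →ₐ[Qb] L)

/-- Pointwise form of the conjecture. -/
def PW : Prop :=
  ∀ (ι : Type) [Fintype ι] (w : ι → ℂ), (∀ i, ¬ CMv (w i)) →
    (∀ i j, i ≠ j → ¬ Iso (w i) (w j)) →
    ∃ f : MvPolynomial ι Qb, aeval w f ≠ 0 ∧
      ∀ w' : ι → ℂ, (∀ g : MvPolynomial ι Qb, aeval w g = 0 → aeval w' g = 0) →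
        ∀ (m m' : ℕ) (T : Finset ι), ¬ TrGe Qb w m → TrGe Qb w' m' → RelT w' T →
          m ≤ m' + T.card → aeval w' f = 0

/-! ## The `j`-function -/

/-- **SURJ** -/
def S_SURJ : Prop := ∀ x : ℂ, ∃ τ : ℍ, jj τ = x

/-- **PN** (modular polynomials over the algebraic numbers) -/
def S_PN : Prop := ∀ N : ℕ, 0 < N → ∃ F : MvPolynomial (Fin 2) Qb, F ≠ 0 ∧
  ∀ x y : ℂ, aeval ![x, y] F = 0 ↔ IsoN N x y

/-- **TRN** (the isogenous values depend only on `j τ`; they are finitely many) -/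
def S_TRN : Prop :=
  (∀ (τ τ' w' : ℍ) (a b c d : ℤ), jj τ = jj τ' → 0 < a * d - b * c →
    (w' : ℂ) * ((c : ℂ) * (τ' : ℂ) + (d : ℂ)) = (a : ℂ) * (τ' : ℂ) + (b : ℂ) →
    ∃ (w : ℍ) (a' b' c' d' : ℤ), a' * d' - b' * c' = a * d - b * c ∧
      (w : ℂ) * ((c' : ℂ) * (τ : ℂ) + (d' : ℂ)) = (a' : ℂ) * (τ : ℂ) + (b' : ℂ) ∧
      jj w = jj w') ∧
  ∀ (N : ℕ) (y : ℂ), 0 < N → {x : ℂ | IsoN N x y}.Finite

/-- **EQV** -/
def S_EQV : Prop := (∀ x, Iso x x) ∧ (∀ x y, Iso x y → Iso y x) ∧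
  (∀ (N : ℕ) x y, 0 < N → IsoN N x y → IsoN N y x) ∧
  (∀ x y z, Iso x y → Iso y z → Iso x z) ∧ (∀ x y, Iso x y → CMv x → CMv y)

/-- **CMA** (singular moduli are algebraic, `0` is one) -/
def S_CMA : Prop := (∀ x, CMv x → ∃ c : Qb, (c : ℂ) = x) ∧ CMv 0

/-- **ALG** -/
def S_ALG : Prop := ∀ (K : IntermediateField Qb ℂ) (x y : ℂ), Iso x y → y ∈ K → IsAlgebraic K x

/-- **GRO** (growth of `j`) -/
def S_GRO : Prop := ∃ Y C : ℝ, 0 < C ∧ ∀ τ : ℍ, Y ≤ τ.im →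
  Real.exp (2 * Real.pi * τ.im) ≤ C * ‖jj τ‖ ∧ ‖jj τ‖ ≤ C * Real.exp (2 * Real.pi * τ.im)

/-- **RES** (resultants) -/
def S_RES : Prop := ∀ f g : Polynomial ℂ, 0 < f.natDegree → ∃ R : MvPolynomial (Fin 2) ℂ,
  ∀ y z : ℂ, eval ![y, z] R = 0 ↔ ∃ s : ℂ, f.eval s = z ∧ g.eval s = y

/-- **PG** (growth exponents) -/
def S_PG : Prop := S_GRO → ∀ (a b d : ℤ) (f g : Polynomial ℂ), 0 < a → 0 < d →
  0 < f.natDegree → 0 < g.natDegree →
  (∀ τ w : ℍ, (w : ℂ) * (d : ℂ) = (a : ℂ) * (τ : ℂ) + (b : ℂ) →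
    ∃ s : ℂ, f.eval s = jj τ ∧ g.eval s = jj w) →
  (g.natDegree : ℤ) * d = a * (f.natDegree : ℤ)

/-- **PA** (first part of P4) -/
def S_PA : Prop := ∀ (N : ℕ) (f g : Polynomial ℂ), 0 < N → 0 < f.natDegree →
  (∀ s : ℂ, IsoN N (g.eval s) (f.eval s)) →
  ∃ a b c d : ℤ, a * d - b * c = (N : ℤ) ∧ ∀ τ w : ℍ,
    (w : ℂ) * ((c : ℂ) * (τ : ℂ) + (d : ℂ)) = (a : ℂ) * (τ : ℂ) + (b : ℂ) →
    ∃ s : ℂ, f.eval s = jj τ ∧ g.eval s = jj w

/-- **PB** (second part of P4) -/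
def S_PB : Prop := ∀ (N : ℕ) (f g : Polynomial ℂ), 0 < N → 0 < f.natDegree → 0 < g.natDegree →
  (∃ a b c d : ℤ, a * d - b * c = (N : ℤ) ∧ ∀ τ w : ℍ,
    (w : ℂ) * ((c : ℂ) * (τ : ℂ) + (d : ℂ)) = (a : ℂ) * (τ : ℂ) + (b : ℂ) →
    ∃ s : ℂ, f.eval s = jj τ ∧ g.eval s = jj w) → f = g

/-- **P4** -/
def S_P4 : Prop := ∀ (N : ℕ) (f g : Polynomial ℂ), 0 < N → (0 < f.natDegree ∨ 0 < g.natDegree) →
  (∀ s : ℂ, IsoN N (f.eval s) (g.eval s)) → f = g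

/-- **NI** (different polynomials in independent variables are not isogenous) -/
def S_NI : Prop := ∀ (K : IntermediateField Qb ℂ) (V : Type) [Fintype V] (t : V → ℂ),
  AlgebraicIndependent K t → ∀ f g : MvPolynomial V K, f ≠ g →
    (f ∉ Set.range (C : K → MvPolynomial V K) ∨ g ∉ Set.range (C : K → MvPolynomial V K)) →
    ¬ Iso (aeval t f) (aeval t g)

/-! ## Algebra -/

/-- **TRC** -/
def S_TRC : Prop := ∀ (F : MvPolynomial (Fin 2) Qb) (x : ℂ), F ≠ 0 → Transcendental Qb x →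
  ∃ (e : ℕ) (Q : MvPolynomial (Fin 2) Qb), F = (X 0 - X 1) ^ e * Q ∧ aeval ![x, x] Q ≠ 0

open Classical in
/-- the gradient of the gate `g` with respect to the nodes -/
noncomputable def gr {G V : Type} (κ : G → Bool) (nd : G × Fin 3 → V) (u : V → ℂ)
    (g : G) (v : V) : ℂ :=
  (if nd (g, 2) = v then 1 else 0) -
    (if κ g then 1 else u (nd (g, 1))) * (if nd (g, 0) = v then 1 else 0) -
    (if κ g then 1 else u (nd (g, 0))) * (if nd (g, 1) = v then 1 else 0)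

/-- **L1** -/
def S_L1 : Prop := S_TRC → S_CMA → ∀ (G V : Type) [Fintype G] [Fintype V]
  (κ : G → Bool) (nd : G × Fin 3 → V) (u : V → ℂ),
  (∀ v v', v ≠ v' → ¬ Iso (u v) (u v')) → (∀ v, ¬ CMv (u v)) →
  (∀ p p', p ≠ p' → nd p = nd p' → Transcendental Qb (u (nd p))) →
  Gate κ (fun p => u (nd p)) → LinearIndependent ℂ (fun g : G => gr κ nd u g) →
  ∀ (L' : Type) [Field L'] [Algebra Qb L'] (ω' : G × Fin 3 → L'), AtypPt Qb κ ω' →
    ¬ ∀ f : MvPolynomial (G × Fin 3) Qb, aeval ω' f = 0 → aeval (fun p => u (nd p)) f = 0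

/-! ## The system -/

/-- base variables: `none` is `μ`, `inl i` is `λ_i`, `inr i` is `W_i = w_i + λ_i` -/
abbrev Bs (ι : Type) : Type := Option (ι ⊕ ι)

/-- exponents -/
abbrev Ex (ι : Type) [Fintype ι] (D : ℕ) : Type :=
  {e : Bs ι → Fin (D + 1) // ∑ b, (e b : ℕ) ≤ D}

section System

variable {ι E : Type} [Fintype ι] [Fintype E] [DecidableEq ι] [DecidableEq E]
  {D : ℕ} {r : E → ℕ}

/-- nodes: `w_i`, `λ_i`, `W_i`, `μ X^e`, partial sums -/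
abbrev Nd (ι E : Type) [Fintype ι] (D : ℕ) (r : E → ℕ) : Type :=
  ι ⊕ ((ι ⊕ ι) ⊕ (Ex ι D ⊕ Σ l : E, Fin (r l)))

/-- gates -/
abbrev Gt (ι E : Type) [Fintype ι] (D : ℕ) (r : E → ℕ) : Type :=
  ι ⊕ ({e : Ex ι D // ∃ b, 0 < (e.1 b : ℕ)} ⊕ Σ l : E, Fin (r l))

/-- values of the base variables -/
def xb {R : Type} [CommRing R] (w lam : ι → R) (μ : R) : Bs ι → R
  | none => μ
  | some (Sum.inl i) => lam i
  | some (Sum.inr i) => w i + lam i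

/-- the monomial `μ X^e` -/
def mo {R : Type} [CommRing R] (w lam : ι → R) (μ : R) (e : Ex ι D) : R :=
  μ * ∏ b, xb w lam μ b ^ (e.1 b : ℕ)

/-- the terms of the relations -/
def tm {R : Type} [CommRing R] (ε : ∀ l, Fin (r l) → ℤ) (M : ∀ l, Fin (r l) → Ex ι D)
    (w lam : ι → R) (μ : R) (l : E) (j : Fin (r l)) : R :=
  (ε l j : R) * mo w lam μ (M l j)

/-- values of the nodes -/
def val {R : Type} [CommRing R] (ε : ∀ l, Fin (r l) → ℤ) (M : ∀ l, Fin (r l) → Ex ι D)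
    (w lam : ι → R) (μ : R) (nu : E → R) : Nd ι E D r → R
  | Sum.inl i => w i
  | Sum.inr (Sum.inl (Sum.inl i)) => lam i
  | Sum.inr (Sum.inl (Sum.inr i)) => w i + lam i
  | Sum.inr (Sum.inr (Sum.inl e)) => mo w lam μ e
  | Sum.inr (Sum.inr (Sum.inr ⟨l, j⟩)) => nu l + psum (tm ε M w lam μ l) j

/-- the exponent `0` -/
def ex0 : Ex ι D := ⟨fun _ => 0, by simp⟩

/-- the nodes of the base variables -/
def nb : Bs ι → Nd ι E D r
  | none => Sum.inr (Sum.inr (Sum.inl ex0))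
  | some (Sum.inl i) => Sum.inr (Sum.inl (Sum.inl i))
  | some (Sum.inr i) => Sum.inr (Sum.inl (Sum.inr i))

/-- a variable occurring in `e` -/
noncomputable def ch (e : {e : Ex ι D // ∃ b, 0 < (e.1 b : ℕ)}) : Bs ι := Classical.choose e.2

/-- `e` minus this variable -/
noncomputable def pre (e : {e : Ex ι D // ∃ b, 0 < (e.1 b : ℕ)}) : Ex ι D :=
  ⟨fun b => if b = ch e then ⟨(e.1.1 b : ℕ) - 1, by have := (e.1.1 b).2; omega⟩ else e.1.1 b,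
    le_trans (Finset.sum_le_sum fun b _ => by dsimp only; split_ifs <;> simp) e.1.2⟩

/-- partial sum node -/
def ps (l : E) (j : Fin (r l)) : Nd ι E D r := Sum.inr (Sum.inr (Sum.inr ⟨l, j⟩))

/-- monomial node -/
def mn (e : Ex ι D) : Nd ι E D r := Sum.inr (Sum.inr (Sum.inl e))

/-- the wiring -/
noncomputable def nd (ε : ∀ l, Fin (r l) → ℤ) (M : ∀ l, Fin (r l) → Ex ι D) :
    Gt ι E D r × Fin 3 → Nd ι E D r
  | (Sum.inl i, 0) => Sum.inl i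
  | (Sum.inl i, 1) => Sum.inr (Sum.inl (Sum.inl i))
  | (Sum.inl i, 2) => Sum.inr (Sum.inl (Sum.inr i))
  | (Sum.inr (Sum.inl e), 0) => mn (pre e)
  | (Sum.inr (Sum.inl e), 1) => nb (ch e)
  | (Sum.inr (Sum.inl e), 2) => mn e.1
  | (Sum.inr (Sum.inr ⟨l, j⟩), 0) => if ε l j = 1 then ps l j else ps l (nx j)
  | (Sum.inr (Sum.inr ⟨l, j⟩), 1) => mn (M l j)
  | (Sum.inr (Sum.inr ⟨l, j⟩), 2) => if ε l j = 1 then ps l (nx j) else ps l j

/-- the kinds of the gates -/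
def kd : Gt ι E D r → Bool
  | Sum.inl _ => true
  | Sum.inr (Sum.inl _) => false
  | Sum.inr (Sum.inr _) => true

end System

/-- **YG** (the system satisfies the gates) -/
def S_YG : Prop := ∀ (ι E : Type) [Fintype ι] [Fintype E] [DecidableEq ι] [DecidableEq E] (D : ℕ)
  (r : E → ℕ) (ε : ∀ l, Fin (r l) → ℤ) (M : ∀ l, Fin (r l) → Ex ι D) (w lam : ι → ℂ) (μ : ℂ)
  (nu : E → ℂ), (∀ l j, ε l j = 1 ∨ ε l j = -1) → (∀ l, ∑ j, tm ε M w lam μ l j = 0) →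
  Gate kd (fun p => val ε M w lam μ nu (nd ε M p))

/-- **YL** (the gradients are independent) -/
def S_YL : Prop := ∀ (ι E : Type) [Fintype ι] [Fintype E] [DecidableEq ι] [DecidableEq E] (D : ℕ)
  (r : E → ℕ) (ε : ∀ l, Fin (r l) → ℤ) (M : ∀ l, Fin (r l) → Ex ι D) (w lam : ι → ℂ) (μ : ℂ)
  (nu : E → ℂ) (el : E → ι), Function.Injective el →
  (∀ l j, ε l j = 1 ∨ ε l j = -1) → (∀ b, xb w lam μ b ≠ 0) →
  (∀ l j l', l' ≠ l → ((M l j).1 (some (Sum.inr (el l'))) : ℕ) = 0) →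
  (∀ l, ∑ j, (((M l j).1 (some (Sum.inr (el l))) : ℕ) : ℂ) * tm ε M w lam μ l j ≠ 0) →
  LinearIndependent ℂ (fun g : Gt ι E D r => gr kd (nd ε M) (val ε M w lam μ nu) g)

/-- **YN** (the nodes are not isogenous) -/
def S_YN : Prop := S_NI → S_CMA → S_ALG → S_EQV →
  ∀ (ι E : Type) [Fintype ι] [Fintype E] [DecidableEq ι] [DecidableEq E] (D : ℕ)
  (r : E → ℕ) (ε : ∀ l, Fin (r l) → ℤ) (M : ∀ l, Fin (r l) → Ex ι D) (w lam : ι → ℂ) (μ : ℂ)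
  (nu : E → ℂ) (K : IntermediateField Qb ℂ), (∀ i, w i ∈ K) →
  AlgebraicIndependent K (Sum.elim (fun o : Option ι => o.elim μ lam) nu) →
  (∀ i, ¬ CMv (w i)) → (∀ i j, i ≠ j → ¬ Iso (w i) (w j)) →
  (∀ l, Function.Injective (psum (tm ε M w lam μ l))) →
  (∀ v v' : Nd ι E D r, v ≠ v' →
    ¬ Iso (val ε M w lam μ nu v) (val ε M w lam μ nu v')) ∧
  (∀ v : Nd ι E D r, ¬ CMv (val ε M w lam μ nu v)) ∧
  ∀ v : Nd ι E D r, (∀ i, v ≠ Sum.inl i) → Transcendental Qb (val ε M w lam μ nu v)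

/-- **IND** -/
def S_IND : Prop := (∀ S : Set ℂ, S.Countable →
    ((IntermediateField.adjoin Qb S : IntermediateField Qb ℂ) : Set ℂ).Countable) ∧
  ∀ K : IntermediateField Qb ℂ, (K : Set ℂ).Countable → ∀ (V : Type) [Fintype V],
    ∃ t : V → ℂ, AlgebraicIndependent K t

/-- the properties of the system attached to `w` -/
def IsSys {ι E : Type} [Fintype ι] [Fintype E] (w : ι → ℂ) (D : ℕ) (r : E → ℕ)
    (ε : ∀ l, Fin (r l) → ℤ) (M : ∀ l, Fin (r l) → Ex ι D) (lam : ι → ℂ) (μ : ℂ)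
    (nu : E → ℂ) (el : E → ι) : Prop :=
  0 < D ∧ Function.Injective el ∧ (∀ l j, ε l j = 1 ∨ ε l j = -1) ∧ (∀ b, xb w lam μ b ≠ 0) ∧
  AlgebraicIndependent (IntermediateField.adjoin Qb (Set.range w))
    (Sum.elim (fun o : Option ι => o.elim μ lam) nu) ∧
  (∀ l, ∑ j, tm ε M w lam μ l j = 0) ∧
  (∀ l j l', l' ≠ l → ((M l j).1 (some (Sum.inr (el l'))) : ℕ) = 0) ∧
  (∀ l, ∑ j, (((M l j).1 (some (Sum.inr (el l))) : ℕ) : ℂ) * tm ε M w lam μ l j ≠ 0) ∧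
  ∀ l, Function.Injective (psum (tm ε M w lam μ l))

/-- **SY** (existence of the system) -/
def S_SY : Prop := S_LI → S_CO → S_IND → ∀ (ι : Type) [Fintype ι] (w : ι → ℂ)
  (d : ℕ), (∀ i, w i ≠ 0) → TrGe Qb w d → ¬ TrGe Qb w (d + 1) →
  ∃ (E : Type) (_ : Fintype E) (D : ℕ) (r : E → ℕ)
    (ε : ∀ l, Fin (r l) → ℤ) (M : ∀ l, Fin (r l) → Ex ι D) (lam : ι → ℂ) (μ : ℂ)
    (nu : E → ℂ) (el : E → ι), Fintype.card E + d = Fintype.card ι ∧
    IsSys w D r ε M lam μ nu el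

/-- **SW** (the specialised points are atypical) -/
def S_SW : Prop := S_EQV → S_PN → S_YG → ∀ (ι E : Type) [Fintype ι] [Fintype E] [DecidableEq ι]
  [DecidableEq E] (D : ℕ) (r : E → ℕ) (ε : ∀ l, Fin (r l) → ℤ) (M : ∀ l, Fin (r l) → Ex ι D)
  (w lam : ι → ℂ) (μ : ℂ) (nu : E → ℂ) (d m : ℕ) (T : Finset ι), 0 < D → (∀ l, 0 < r l) →
  (∀ l j, ε l j = 1 ∨ ε l j = -1) → (∀ l, ∑ j, tm ε M w lam μ l j = 0) →
  AlgebraicIndependent (IntermediateField.adjoin Qb (Set.range w))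
    (Sum.elim (fun o : Option ι => o.elim μ lam) nu) →
  Fintype.card E + d = Fintype.card ι → TrGe Qb w m → RelT w T → d < m + T.card →
  AtypPt Qb kd (fun p => val ε M w lam μ nu (nd ε M p))

/-- **SA** -/
def S_SA : Prop := S_L1 → S_TRC → S_CMA → S_NI → S_ALG → S_EQV → S_PN → S_YG → S_YL → S_YN →
  S_IND → S_LI → S_CO → S_SY → S_SW →
  (∀ (G : Type) [Fintype G] (κ : G → Bool), FinQ G κ) → PW

/-- **TR** (change of the index set of the gates) -/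
def S_TR : Prop := (∀ (k : ℕ) (κ : Fin k → Bool), FinQ (Fin k) κ) →
  ∀ (G : Type) [Fintype G] (κ : G → Bool), FinQ G κ

/-! ## Ideals -/

/-- dimension at least `m` -/
def DimGe {σ : Type} (P : Ideal (MvPolynomial σ ℂ)) (m : ℕ) : Prop :=
  ∃ y : Fin m → MvPolynomial σ ℂ ⧸ P, AlgebraicIndependent ℂ y

/-- `RelT` for ideals -/
def RelI {σ : Type} (Q : Ideal (MvPolynomial σ ℂ)) (T : Finset σ) : Prop :=
  ∀ t ∈ T, (∃ c : Qb, CMv (c : ℂ) ∧ (X t - C (c : ℂ) : MvPolynomial σ ℂ) ∈ Q) ∨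
    ∃ u, u ∉ T ∧ ∃ F : MvPolynomial (Fin 2) Qb, IsMod F ∧
      (aeval ![(X t : MvPolynomial σ ℂ), X u] F : MvPolynomial σ ℂ) ∈ Q

/-- `Z(Q)` is an atypical subvariety of `Z(P)` -/
def AtypI {σ : Type} (P Q : Ideal (MvPolynomial σ ℂ)) : Prop :=
  Q.IsPrime ∧ P ≤ Q ∧ ∃ (m : ℕ) (T : Finset σ), DimGe Q m ∧ RelI Q T ∧ ¬ DimGe P (m + T.card)

/-- finitely many maximal atypical subvarieties -/
def FinI {σ : Type} (P : Ideal (MvPolynomial σ ℂ)) : Prop :=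
  ∃ S : Finset (Ideal (MvPolynomial σ ℂ)), (∀ Q ∈ S, AtypI P Q) ∧
    ∀ Q, AtypI P Q → ∃ Q' ∈ S, Q' ≤ Q

/-- the key lemma -/
def KL {σ : Type} (P : Ideal (MvPolynomial σ ℂ)) : Prop :=
  ∀ R : Ideal (MvPolynomial σ ℂ), R.IsPrime → P ≤ R → ¬ AtypI P R →
    ∃ g, g ∉ R ∧ ∀ Q, AtypI P Q → R ≤ Q → g ∈ Q

/-- the ideal of the product of gates -/
noncomputable def gI {G : Type} (κ : G → Bool) : Ideal (MvPolynomial (G × Fin 3) ℂ) :=
  Ideal.span (Set.range fun g : G =>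
    X (g, 2) - if κ g then X (g, 0) + X (g, 1) else X (g, 0) * X (g, 1))

/-- **DA** (Noetherian induction) -/
def S_DA : Prop := ∀ (σ : Type) [Fintype σ] (P : Ideal (MvPolynomial σ ℂ)), KL P → FinI P

/-- **GT** (ideals and points of the product of gates) -/
def S_GT : Prop := ∀ (G : Type) [Fintype G] (κ : G → Bool), FinI (gI κ) → FinC G κ

/-- **FQ** (descent) -/
def S_FQ : Prop := ∀ (G : Type) [Fintype G] (κ : G → Bool), FinC G κ → FinQ G κ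

/-- **DEF** (field of definition) -/
def S_DEF : Prop := ∀ (σ : Type) [Fintype σ] (R : Ideal (MvPolynomial σ ℂ)),
  ∃ (n : ℕ) (a : Fin n → ℂ), (∀ i, a i ≠ 0) ∧
    ∀ k : IntermediateField Qb ℂ, (∀ i, a i ∈ k) → ∃ B : Set (MvPolynomial σ k),
      R = Ideal.span ((MvPolynomial.map (algebraMap k ℂ)) '' B)

/-- **GEN** (generic points with complex coordinates) -/
def S_GEN : Prop := ∀ (σ : Type) [Fintype σ] (R : Ideal (MvPolynomial σ ℂ)), R.IsPrime →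
  ∀ k : IntermediateField Qb ℂ, (k : Set ℂ).Countable →
  (∃ B : Set (MvPolynomial σ k), R = Ideal.span ((MvPolynomial.map (algebraMap k ℂ)) '' B)) →
  ∃ x : σ → ℂ, (∀ f : MvPolynomial σ k,
      aeval x f = 0 ↔ MvPolynomial.map (algebraMap k ℂ) f ∈ R) ∧ ∀ m, TrGe k x m ↔ DimGe R m

/-- the tuple `(x_J, λ, λ + a)` -/
def wt {σ ρ : Type} (x : σ → ℂ) (J : Finset σ) (lam a : ρ → ℂ) : (J ⊕ (ρ ⊕ ρ)) → ℂ :=
  Sum.elim (fun j => x j) (Sum.elim lam (fun i => lam i + a i))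

/-- **TA** (transcendence degree of this tuple) -/
def S_TA : Prop := ∀ (ρ : Type) [Fintype ρ] (a : ρ → ℂ), ∃ s : ℕ,
  ∀ (σ : Type) [Fintype σ] (x : σ → ℂ) (J : Finset σ) (lam : ρ → ℂ),
    AlgebraicIndependent (IntermediateField.adjoin Qb (Set.range x ∪ Set.range a)) lam →
    (∀ i, IsAlgebraic (IntermediateField.adjoin Qb (x '' (J : Set σ))) (x i)) →
    ∀ m, TrGe (IntermediateField.adjoin Qb (Set.range a)) x m ↔ TrGe Qb (wt x J lam a) (m + s)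

/-- **SPX** (coordinates up to isogeny) -/
def S_SPX : Prop := S_EQV → S_PN → S_CMA →
  (∀ (ι : Type) (ω : ι → ℂ) (T : Finset ι), RelT ω T ↔
    ∀ t ∈ T, CMv (ω t) ∨ ∃ u, u ∉ T ∧ Iso (ω t) (ω u)) ∧
  ∀ (σ : Type) [Fintype σ] (ω : σ → ℂ),
    (∃ J : Finset σ, (∀ i ∈ J, ¬ CMv (ω i)) ∧ (∀ i ∈ J, ∀ j ∈ J, i ≠ j → ¬ Iso (ω i) (ω j)) ∧
      (∀ i, i ∉ J → CMv (ω i) ∨ ∃ j ∈ J, Iso (ω i) (ω j)) ∧
      ∃ T : Finset σ, (∀ i, i ∈ T ↔ i ∉ J) ∧ RelT ω T) ∧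
    ∀ J : Finset σ, (∀ i, i ∉ J → CMv (ω i) ∨ ∃ j ∈ J, Iso (ω i) (ω j)) →
      ∀ T, RelT ω T → ∃ T' : Finset J, RelT (fun j : J => ω j) T' ∧
        T.card + J.card ≤ T'.card + Fintype.card σ

/-- **SB** -/
def S_SB : Prop := S_DEF → S_GEN → S_TA → S_SPX → S_IND → S_NI → S_EQV → S_PN → S_CMA → S_ALG →
  PW → ∀ (σ : Type) [Fintype σ] (P : Ideal (MvPolynomial σ ℂ)), KL P

/-! ## Subvarieties and special subvarieties, literally -/

/-- the ideal of a set -/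
def IV {σ : Type} (V : Set (σ → ℂ)) : Ideal (MvPolynomial σ ℂ) where
  carrier := {f | ∀ x ∈ V, eval x f = 0}
  add_mem' := fun {f g} hf hg x hx => by
    rw [map_add, hf x hx, hg x hx, add_zero]
  zero_mem' := fun x _ => map_zero _
  smul_mem' := fun c f hf x hx => by
    rw [smul_eq_mul, map_mul, hf x hx, mul_zero]

/-- the zero set of an ideal -/
def ZL {σ : Type} (P : Ideal (MvPolynomial σ ℂ)) : Set (σ → ℂ) := {x | ∀ f ∈ P, eval x f = 0}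

/-- irreducible Zariski closed sets -/
def IsVar {σ : Type} (V : Set (σ → ℂ)) : Prop := V = ZL (IV V) ∧ (IV V).IsPrime

/-- the dimension of a closed set (Krull dimension of its coordinate ring) -/
noncomputable def vdim {σ : Type} (V : Set (σ → ℂ)) : WithBot ℕ∞ :=
  ringKrullDim (MvPolynomial σ ℂ ⧸ IV V)

/-- The data of a special subvariety of `Y(1)^σ` of dimension `r`: a map from the coordinates onto
`r` classes (`none` for constant coordinates), an integral matrix of positive determinant for every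
coordinate, and a CM point for every coordinate (used for the constant ones). -/
structure Datum (σ : Type) (r : ℕ) where
  cls : σ → Option (Fin r)
  surj : ∀ l : Fin r, ∃ i, cls i = some l
  mat : σ → Matrix (Fin 2) (Fin 2) ℤ
  det_pos : ∀ i, 0 < (mat i).det
  pt : σ → ℍ
  cm : ∀ i, IsCM (pt i)

/-- its points: `j` of a CM point in the constant coordinates, `j (g_i z_l)` with a free parameter
`z_l` in the coordinates of class `l` -/
def Datum.locus {σ : Type} {r : ℕ} (Z : Datum σ r) : Set (σ → ℂ) :=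
  {x | ∃ z : Fin r → ℍ, ∀ i, (Z.cls i = none → x i = jj (Z.pt i)) ∧
    ∀ l, Z.cls i = some l → ∃ w : ℍ,
      (w : ℂ) * ((Z.mat i 1 0 : ℂ) * (z l : ℂ) + (Z.mat i 1 1 : ℂ)) =
        (Z.mat i 0 0 : ℂ) * (z l : ℂ) + (Z.mat i 0 1 : ℂ) ∧ x i = jj w}

/-- the special subvarieties of dimension `r` -/
def IsSpecial {σ : Type} (S : Set (σ → ℂ)) (r : ℕ) : Prop := ∃ Z : Datum σ r, S = ZL (IV Z.locus)

/-- irreducible components -/
def IsComp {σ : Type} (A B : Set (σ → ℂ)) : Prop :=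
  IsVar A ∧ A ⊆ B ∧ ∀ A', IsVar A' → A ⊆ A' → A' ⊆ B → A' = A

/-- `A` is an atypical subvariety of `V` -/
def Atypical {σ : Type} [Fintype σ] (V A : Set (σ → ℂ)) : Prop :=
  ∃ (r : ℕ) (S : Set (σ → ℂ)), IsSpecial S r ∧ IsComp A (V ∩ S) ∧
    vdim V + (r : WithBot ℕ∞) < vdim A + (Fintype.card σ : WithBot ℕ∞)

/-- finitely many maximal atypical subvarieties -/
def FinMax {σ : Type} [Fintype σ] (V : Set (σ → ℂ)) : Prop := {A | Maximal (Atypical V) A}.Finite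

/-- the product of gates -/
def GV {G : Type} (κ : G → Bool) : Set (G × Fin 3 → ℂ) :=
  {x | ∀ g, x (g, 2) = if κ g then x (g, 0) + x (g, 1) else x (g, 0) * x (g, 1)}

/-- **DK** -/
def S_DK : Prop := ∀ (σ : Type) [Fintype σ] (Q : Ideal (MvPolynomial σ ℂ)), Q.IsPrime →
  (∃ d : ℕ, ringKrullDim (MvPolynomial σ ℂ ⧸ Q) = d ∧ ∀ m, DimGe Q m ↔ m ≤ d) ∧ IV (ZL Q) = Q

/-- **RL** -/
def S_RL : Prop := S_SURJ → S_PN → S_CMA → ∀ (σ : Type) [Fintype σ]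
  (Q : Ideal (MvPolynomial σ ℂ)), Q.IsPrime → IV (ZL Q) = Q → ∀ s : ℕ,
  (∃ T : Finset σ, T.card = s ∧ RelI Q T) ↔
    ∃ (r : ℕ) (S : Set (σ → ℂ)), r + s = Fintype.card σ ∧ IsSpecial S r ∧ ZL Q ⊆ S

/-- **LT** -/
def S_LT : Prop := S_DK → (∀ (σ : Type) [Fintype σ]
  (Q : Ideal (MvPolynomial σ ℂ)), Q.IsPrime → IV (ZL Q) = Q → ∀ s : ℕ,
  (∃ T : Finset σ, T.card = s ∧ RelI Q T) ↔
    ∃ (r : ℕ) (S : Set (σ → ℂ)), r + s = Fintype.card σ ∧ IsSpecial S r ∧ ZL Q ⊆ S) →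
  ∀ (σ : Type) [Fintype σ] (V : Set (σ → ℂ)), IsVar V → (FinMax V ↔ FinI (IV V))

/-- **GP** (the product of gates is irreducible) -/
def S_GP : Prop := ∀ (G : Type) [Fintype G] (κ : G → Bool), IsVar (GV κ) ∧ IV (GV κ) = gI κ ∧
  (∀ m, DimGe (gI κ) m ↔ m ≤ 2 * Fintype.card G)

/-- **RI** (change of the index set) -/
def S_RI : Prop := (∀ (n : ℕ) (V : Set (Fin n → ℂ)), IsVar V → FinI (IV V)) →
  ∀ (σ : Type) [Fintype σ] (V : Set (σ → ℂ)), IsVar V → FinI (IV V)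

/-- the final statement -/
def Fin_Stm : Prop := (∀ (n : ℕ) (V : Set (Fin n → ℂ)), IsVar V → FinMax V) ↔
  ∀ (k : ℕ) (κ : Fin k → Bool), FinMax (GV κ)

end Pool.Agent.W206.YP
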